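import Pool.Agent.R200.ParryMain

/-!
# MP_3f28ca_an: the Parry measure of the golden mean shift is the frequency measure of a primitive
random substitution
-/

namespace Pool.Agent.Results.MP_3f28ca_an.ParryIsFrequencyMeasure

open Pool.Agent.R200.Parry

/-- There is a primitive random substitution on two letters (`false` is `a`, `true` is `b`) whose
almost sure word frequencies are the Parry measures of the cylinders; that is, its frequency
measure is the Parry measure of the golden mean shift. -/
theorem result : ∃ θ : Bool → PMF (List Bool),
    IsRandomSubstitution θ ∧ Primitive θ ∧ HasFrequencies θ parry :=
  ⟨th, th_rs, th_primitive, th_freq⟩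

end Pool.Agent.Results.MP_3f28ca_an.ParryIsFrequencyMeasure
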